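import Pool.Agent.Lib.MP_60829e_nt.FQ.Defs

/-! # Reduction of arbitrary tuples to independent tuples -/

open MvPolynomial Module

namespace MP60829e.FR

open MP60829e.ST (Qa Lsp Lt)

/-- The coordinates outside the range. -/
abbrev Cp {n n' : ℕ} (ι : Fin n' ↪ Fin n) : Type := ↥((Set.range ι)ᶜ : Set (Fin n))

open Classical in
/-- The number of the additional parameters. -/
noncomputable def kp {n n' : ℕ} (ι : Fin n' ↪ Fin n) : ℕ := Fintype.card (Cp ι × Fin n')

open Classical in
/-- The numbering of the additional parameters. -/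
noncomputable def ep {n n' : ℕ} (ι : Fin n' ↪ Fin n) : Cp ι × Fin n' ≃ Fin (kp ι) :=
  Fintype.equivFin _

theorem kp_eq {n n' : ℕ} (ι : Fin n' ↪ Fin n) : kp ι = (n - n') * n' := by
  classical
  unfold kp
  rw [Fintype.card_prod, Fintype.card_fin, Fintype.card_compl_set,
    Set.card_range_of_injective ι.injective, Fintype.card_fin, Fintype.card_fin]

theorem le_of_emb {n n' : ℕ} (ι : Fin n' ↪ Fin n) : n' ≤ n := by
  have h := Fintype.card_le_of_embedding ι
  rwa [Fintype.card_fin, Fintype.card_fin] at h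

open Classical in
/-- `P (z; X at the coordinates in the range, A X at the others)`. -/
noncomputable def PT {N n n' : ℕ} (ι : Fin n' ↪ Fin n) (P : MvPolynomial (Fin N ⊕ Fin n) ℂ) :
    MvPolynomial (Fin (N + kp ι) ⊕ Fin n') ℂ :=
  aeval (Sum.elim (fun l => X (Sum.inl (Fin.castAdd _ l)))
    (fun i => if h : i ∈ (Set.range ι)ᶜ then
        ∑ j, X (Sum.inl (Fin.natAdd N (ep ι (⟨i, h⟩, j)))) * X (Sum.inr j)
      else X (Sum.inr (Classical.choose (Set.mem_range.1 (Set.notMem_compl_iff.1 h)))))) P

private theorem eval_ext {σ τ : Type} (P : MvPolynomial σ ℂ) (f : σ → MvPolynomial τ ℂ)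
    (x : τ → ℂ) : eval x (aeval f P) = eval (fun s => eval x (f s)) P := by
  induction P using MvPolynomial.induction_on with
  | C a => rw [algHom_C, eval_C, MvPolynomial.algebraMap_eq, eval_C]
  | add p q hp hq => rw [map_add, map_add, map_add, hp, hq]
  | mul_X p i hp => rw [map_mul, map_mul, map_mul, hp, aeval_X, eval_X]

/-- The parameters. -/
noncomputable def za {N n n' : ℕ} (ι : Fin n' ↪ Fin n) (z : Fin N → Qa)
    (A : Fin n → Fin n' → Qa) : Fin (N + kp ι) → Qa :=
  Fin.append z fun k => A ((ep ι).symm k).1 ((ep ι).symm k).2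

theorem eval_PT {N n n' : ℕ} (ι : Fin n' ↪ Fin n) (P : MvPolynomial (Fin N ⊕ Fin n) ℂ)
    (z : Fin N → Qa) (A : Fin n → Fin n' → Qa) (x : Fin n → ℂ)
    (hx : ∀ i, x i = ∑ j, A i j • x (ι j)) :
    eval (Sum.elim (fun l => (za ι z A l : ℂ)) (fun j => x (ι j))) (PT ι P) =
      eval (Sum.elim (fun l => (z l : ℂ)) x) P := by
  classical
  unfold PT
  rw [eval_ext]
  congr 2
  funext s
  rcases s with l | i
  · simp only [Sum.elim_inl, eval_X]
    unfold za
    rw [Fin.append_left]
  · simp only [Sum.elim_inr]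
    split_ifs with h
    · rw [map_sum, hx i]
      refine Finset.sum_congr rfl fun j _ => ?_
      rw [map_mul, eval_X, eval_X, Sum.elim_inl, Sum.elim_inr]
      unfold za
      rw [Fin.append_right, Equiv.symm_apply_apply, Algebra.smul_def]
      rfl
    · rw [eval_X, Sum.elim_inr,
        Classical.choose_spec (Set.mem_range.1 (Set.notMem_compl_iff.1 h))]

/-- All linear relations of `w` are satisfied by `x`. -/
def Rels {n : ℕ} (w x : Fin n → ℂ) : Prop :=
  ∀ q : Fin n → Qa, ∑ i, q i • w i = 0 → ∑ i, q i • x i = 0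

/-- A basis among the coordinates. -/
theorem exists_basis {n : ℕ} (w : Fin n → ℂ) : ∃ (n' : ℕ) (ι : Fin n' ↪ Fin n)
    (A : Fin n → Fin n' → Qa), LinearIndependent Qa (fun j => w (ι j)) ∧
      ∀ x : Fin n → ℂ, Rels w x → ∀ i, x i = ∑ j, A i j • x (ι j) := by
  classical
  obtain ⟨κ, a, ha, hspan, hli⟩ := exists_linearIndependent' Qa w
  have hfin : Finite κ := Finite.of_injective a ha
  have : Fintype κ := Fintype.ofFinite κ
  let e := Fintype.equivFin κ
  let ι : Fin (Fintype.card κ) ↪ Fin n := ⟨fun j => a (e.symm j), ha.comp e.symm.injective⟩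
  have hιa : ∀ j, ι j = a (e.symm j) := fun _ => rfl
  have hrange : Set.range (fun j => w (ι j)) = Set.range (w ∘ a) := by
    ext y
    constructor
    · rintro ⟨j, rfl⟩
      exact ⟨e.symm j, rfl⟩
    · rintro ⟨k, rfl⟩
      refine ⟨e k, ?_⟩
      simp only [hιa, Equiv.symm_apply_apply, Function.comp_apply]
  have hmem : ∀ i, w i ∈ Submodule.span Qa (Set.range fun j => w (ι j)) := by
    intro i
    rw [hrange, hspan]
    exact Submodule.subset_span ⟨i, rfl⟩
  have hA : ∀ i, ∃ c : Fin (Fintype.card κ) → Qa, ∑ j, c j • w (ι j) = w i := fun i =>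
    (Submodule.mem_span_range_iff_exists_fun Qa).1 (hmem i)
  choose A hA using hA
  refine ⟨_, ι, A, hli.comp e.symm e.symm.injective, fun x hx i => ?_⟩
  -- the relation
  have h1 := hx (fun i' => (if i' = i then 1 else 0) - ∑ j, if ι j = i' then A i j else 0) (by
    simp only [sub_smul, Finset.sum_sub_distrib, ite_smul, one_smul, zero_smul,
      Finset.sum_ite_eq', Finset.mem_univ, if_true, Finset.sum_smul]
    rw [Finset.sum_comm]
    simp only [Finset.sum_ite_eq, Finset.mem_univ, if_true]
    rw [hA, sub_self])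
  simp only [sub_smul, Finset.sum_sub_distrib, ite_smul, one_smul, zero_smul,
    Finset.sum_ite_eq', Finset.mem_univ, if_true, Finset.sum_smul] at h1
  rw [Finset.sum_comm] at h1
  simp only [Finset.sum_ite_eq, Finset.mem_univ, if_true] at h1
  exact sub_eq_zero.1 h1

end MP60829e.FR
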