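import Pool.Agent.Lib.MP_60829e_nt.FR.Rec
import Pool.Agent.Lib.MP_60829e_nt.FC.Main

/-! # Q-infinity for arbitrary tuples: every relation is a consequence of the linear ones -/

open MvPolynomial Module

namespace MP60829e.FR

open MP60829e.ST (Qa Lsp Lt)
open MP60829e.FC (Xr Gen)
open MP60829e.FQ (GoodP goodP_main)

theorem arith {N n n' m : ℕ} (hn : n' ≤ n) (hm : N + n * (n + 2) + 1 ≤ m) :
    N + (n - n') * n' + n' * (n' + 2) + 1 ≤ m := by
  obtain ⟨k, rfl⟩ := Nat.exists_eq_add_of_le hn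
  refine le_trans ?_ hm
  rw [Nat.add_sub_cancel_left]
  nlinarith [Nat.zero_le (k * k), Nat.zero_le (k * n')]

/-- From independent to arbitrary tuples. -/
theorem dep_main {N n : ℕ} {P : MvPolynomial (Fin N ⊕ Fin n) ℂ} {X V : Submodule Qa ℂ}
    (h : ∀ (n' : ℕ) (ι : Fin n' ↪ Fin n), GoodP (PT ι P) X V) (z : Fin N → Qa)
    (w : Fin n → ℂ) (hw : ∀ j, w j ∈ X)
    (hd : Disjoint (Submodule.span Qa (Set.range w)) V)
    (h0 : eval (Sum.elim (fun l => (z l : ℂ)) w) P = 0) (x : Fin n → ℂ) (hx : Rels w x) :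
    eval (Sum.elim (fun l => (z l : ℂ)) x) P = 0 := by
  obtain ⟨n', ι, A, hli, hA⟩ := exists_basis w
  have hd' : Disjoint (Submodule.span Qa (Set.range fun j => w (ι j))) V := by
    refine hd.mono_left (Submodule.span_mono ?_)
    rintro _ ⟨j, rfl⟩
    exact ⟨ι j, rfl⟩
  rw [← eval_PT ι P z A w (hA w fun q hq => hq)] at h0
  rw [← eval_PT ι P z A x (hA x hx)]
  exact goodP_main (h n' ι) (za ι z A) (fun j => w (ι j)) (fun j => hw _) hli hd' h0 _

/-- The general theorem, for a given basis of the logarithms and given first values. -/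
theorem main_gen (s n N m : ℕ) (hm : N + n * (n + 2) + 1 ≤ m)
    (P : ℕ → MvPolynomial (Fin N ⊕ Fin n) ℂ) (lam : ℕ → ℂ)
    (halg : ∀ j, IsAlgebraic ℚ (Complex.exp (lam j))) (hli : LinearIndependent ℚ lam)
    (hspan : ∀ z : ℂ, IsAlgebraic ℚ (Complex.exp z) → z ∈ Submodule.span ℚ (Set.range lam))
    (y : ℕ → Fin m → ℚ) :
    ∃ Φ : ℂ →ₗ[ℚ] (Fin m → ℚ), ∃ V : ℕ → Submodule Qa ℂ, (∀ j < s, Φ (lam j) = y j) ∧
      (∀ i, V i ≤ Submodule.span Qa (Set.range fun j : Fin (i + s) => lam j)) ∧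
      ∀ i (z : Fin N → Qa) (w : Fin n → ℂ),
        (∀ j, w j ∈ Submodule.span Qa {l : ℂ | IsAlgebraic ℚ (Complex.exp l) ∧ Φ l = 0}) →
        Disjoint (Submodule.span Qa (Set.range w)) (V i) →
        eval (Sum.elim (fun l => (z l : ℂ)) w) (P i) = 0 →
        ∀ x : Fin n → ℂ, Rels w x → eval (Sum.elim (fun l => (z l : ℂ)) x) (P i) = 0 := by
  classical
  have hlam := FC.baker lam halg hli
  let T : Type := Σ n' : Fin (n + 1), (Fin (n' : ℕ) ↪ Fin n)
  obtain ⟨x, hx0, hx⟩ := exists_x (T := T) (Nf := fun t => N + kp t.2)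
    (nf := fun t => (t.1 : ℕ)) (m := m) s
    (fun t => by
      rw [kp_eq]
      exact arith (le_of_emb t.2) hm)
    lam hlam (fun j => Submodule.subset_span (halg j)) (fun i t => PT t.2 (P i)) y
  obtain ⟨Φ, hΦ⟩ := FC.exists_Phi lam hli x
  refine ⟨Φ, fun i => Xr lam x (i + s), fun j hj => ?_, fun i z hz => ?_, ?_⟩
  · rw [hΦ, hx0 j hj]
  · obtain ⟨c, -, rfl⟩ := FC.mem_Xr.1 hz
    exact Submodule.sum_mem _ fun j _ => Submodule.smul_mem _ _
      (Submodule.subset_span ⟨j, rfl⟩)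
  · intro i z w hw hd h0 v hv
    obtain ⟨r, hr⟩ := FC.exists_r lam x hspan Φ hΦ w hw
    refine dep_main (X := Xr lam x (max i r + s)) (V := Xr lam x (i + s)) (fun n' ι => ?_) z w
      (fun j => FC.Xr_mono lam x (by omega) (hr j)) hd h0 v hv
    exact hx i (max i r) (le_max_left i r) ⟨⟨n', by have := le_of_emb ι; omega⟩, ι⟩

/-- Theorem Q-infinity for arbitrary tuples. -/
theorem main (n N : ℕ) (P : ℕ → MvPolynomial (Fin N ⊕ Fin n) ℂ) :
    ∃ Φ : ℂ →ₗ[ℚ] (Fin (N + (n + 1) ^ 2) → ℚ), ∃ V : ℕ → Submodule Qa ℂ, V 0 = ⊥ ∧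
      (∀ i, FiniteDimensional Qa (V i)) ∧
      ∀ i (z : Fin N → Qa) (w : Fin n → ℂ),
        (∀ j, w j ∈ Submodule.span Qa {l : ℂ | IsAlgebraic ℚ (Complex.exp l) ∧ Φ l = 0}) →
        Disjoint (Submodule.span Qa (Set.range w)) (V i) →
        eval (Sum.elim (fun l => (z l : ℂ)) w) (P i) = 0 →
        ∀ x : Fin n → ℂ, Rels w x → eval (Sum.elim (fun l => (z l : ℂ)) x) (P i) = 0 := by
  have hm : N + n * (n + 2) + 1 ≤ N + (n + 1) ^ 2 := by
    have : (n + 1) ^ 2 = n * (n + 2) + 1 := by ring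
    omega
  obtain ⟨lam, halg, hli, hspan⟩ := FC.exists_lam
  obtain ⟨Φ, V, -, hV, h⟩ := main_gen 0 n N _ hm P lam halg hli hspan 0
  refine ⟨Φ, V, ?_, fun i => ?_, h⟩
  · rw [eq_bot_iff]
    refine (hV 0).trans ?_
    rw [Submodule.span_le]
    rintro _ ⟨j, rfl⟩
    exact j.elim0
  · have : FiniteDimensional Qa (Submodule.span Qa (Set.range fun j : Fin (i + 0) => lam j)) :=
      FiniteDimensional.span_of_finite Qa (Set.finite_range _)
    exact Submodule.finiteDimensional_of_le (hV i)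

end MP60829e.FR
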