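import Pool.Agent.Lib.MP_60829e_nt.FQ.Desc
import Pool.Agent.Lib.MP_60829e_nt.FR.Dep

/-! # The properties for arbitrary tuples -/

open MvPolynomial Module

namespace MP60829e.FR

open MP60829e.ST (Qa Lsp Lt)
open MP60829e.FC (Xr Gen)
open MP60829e.FQ (GoodP goodP_main)

/-- The reduction in general form. -/
theorem reduce {N n : ℕ} (P : MvPolynomial (Fin N ⊕ Fin n) ℂ) (z : Fin N → Qa)
    (w : Fin n → ℂ) : ∃ (n' : ℕ) (ι : Fin n' ↪ Fin n) (z' : Fin (N + kp ι) → Qa),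
      LinearIndependent Qa (fun j => w (ι j)) ∧ ∀ x : Fin n → ℂ, Rels w x →
        eval (Sum.elim (fun l => (z' l : ℂ)) (fun j => x (ι j))) (PT ι P) =
          eval (Sum.elim (fun l => (z l : ℂ)) x) P := by
  obtain ⟨n', ι, A, hli, hA⟩ := exists_basis w
  exact ⟨n', ι, za ι z A, hli, fun x hx => eval_PT ι P z A x (hA x hx)⟩

/-- A zero in `X` (with span disjoint from `V`) is a zero of all `x` which satisfy the linear relations
of `w`. -/
def GoodR {N n : ℕ} (P : MvPolynomial (Fin N ⊕ Fin n) ℂ) (X V : Submodule Qa ℂ) : Prop :=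
  ∀ (z : Fin N → Qa) (w : Fin n → ℂ), (∀ j, w j ∈ X) →
    Disjoint (Submodule.span Qa (Set.range w)) V →
    eval (Sum.elim (fun l => (z l : ℂ)) w) P = 0 →
    ∀ x : Fin n → ℂ, Rels w x → eval (Sum.elim (fun l => (z l : ℂ)) x) P = 0

/-- A value in `Lt` at a tuple in `X` (with span disjoint from `V`): affine on all `x` which satisfy
the linear relations of `w`. -/
def GoodRL {N n : ℕ} (P : MvPolynomial (Fin N ⊕ Fin n) ℂ) (X V : Submodule Qa ℂ) : Prop :=
  ∀ (z : Fin N → Qa) (w : Fin n → ℂ), (∀ j, w j ∈ X) →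
    Disjoint (Submodule.span Qa (Set.range w)) V →
    eval (Sum.elim (fun l => (z l : ℂ)) w) P ∈ Lt →
    ∃ (b : Qa) (a : Fin n → Qa), ∀ x : Fin n → ℂ, Rels w x →
      eval (Sum.elim (fun l => (z l : ℂ)) x) P = (b : ℂ) + ∑ i, (a i : ℂ) * x i

private theorem disj {n n' : ℕ} (w : Fin n → ℂ) (ι : Fin n' ↪ Fin n) {V : Submodule Qa ℂ}
    (hd : Disjoint (Submodule.span Qa (Set.range w)) V) :
    Disjoint (Submodule.span Qa (Set.range fun j => w (ι j))) V := by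
  refine hd.mono_left (Submodule.span_mono ?_)
  rintro _ ⟨j, rfl⟩
  exact ⟨ι j, rfl⟩

theorem goodR_of {N n : ℕ} {P : MvPolynomial (Fin N ⊕ Fin n) ℂ} {X V : Submodule Qa ℂ}
    (h : ∀ (n' : ℕ) (ι : Fin n' ↪ Fin n), GoodP (PT ι P) X V) : GoodR P X V := by
  intro z w hw hd h0 x hx
  obtain ⟨n', ι, z', hli, hz'⟩ := reduce P z w
  rw [← hz' w fun q hq => hq] at h0
  rw [← hz' x hx]
  exact goodP_main (h n' ι) z' (fun j => w (ι j)) (fun j => hw _) hli (disj w ι hd) h0 _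

/-- The same for values in `Lt`; `h` is the statement for independent tuples. -/
theorem goodRL_of {N n : ℕ} {P : MvPolynomial (Fin N ⊕ Fin n) ℂ} {X V : Submodule Qa ℂ}
    (h : ∀ (n' : ℕ) (ι : Fin n' ↪ Fin n) (z' : Fin (N + kp ι) → Qa) (w' : Fin n' → ℂ),
      (∀ j, w' j ∈ X) → LinearIndependent Qa w' →
      Disjoint (Submodule.span Qa (Set.range w')) V →
      eval (Sum.elim (fun l => (z' l : ℂ)) w') (PT ι P) ∈ Lt →
      ∃ (b : Qa) (a : Fin n' → Qa), ∀ x : Fin n' → ℂ,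
        eval (Sum.elim (fun l => (z' l : ℂ)) x) (PT ι P) = (b : ℂ) + ∑ i, (a i : ℂ) * x i) :
    GoodRL P X V := by
  classical
  intro z w hw hd h0
  obtain ⟨n', ι, z', hli, hz'⟩ := reduce P z w
  rw [← hz' w fun q hq => hq] at h0
  obtain ⟨b, a, ha⟩ := h n' ι z' (fun j => w (ι j)) (fun j => hw _) hli (disj w ι hd) h0
  refine ⟨b, fun i => ∑ j, if ι j = i then a j else 0, fun x hx => ?_⟩
  rw [← hz' x hx, ha]
  congr 1
  push_cast
  simp only [Finset.sum_mul]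
  rw [Finset.sum_comm]
  refine Finset.sum_congr rfl fun j _ => ?_
  rw [Finset.sum_eq_single (ι j)]
  · rw [if_pos rfl]
  · intro i _ hi
    rw [if_neg (Ne.symm hi), ZeroMemClass.coe_zero, zero_mul]
  · intro hh
    exact absurd (Finset.mem_univ _) hh

/-- The number of conditions does not grow. -/
theorem arith' {N n n' m : ℕ} (ι : Fin n' ↪ Fin n) (hm : N + n * (n + 2) + 1 ≤ m) :
    (N + kp ι) + n' * (n' + 2) + 1 ≤ m := by
  rw [kp_eq]
  obtain ⟨k, rfl⟩ := Nat.exists_eq_add_of_le (le_of_emb ι)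
  refine le_trans ?_ hm
  rw [Nat.add_sub_cancel_left]
  nlinarith [Nat.zero_le (k * k), Nat.zero_le (k * n')]

/-- The same with the sharp constants. -/
theorem arith_sharp {N n n' m : ℕ} (ι : Fin n' ↪ Fin n) (hm : N + n ^ 2 + 1 ≤ m) :
    (N + kp ι) + n' ^ 2 + 1 ≤ m := by
  rw [kp_eq]
  obtain ⟨k, rfl⟩ := Nat.exists_eq_add_of_le (le_of_emb ι)
  refine le_trans ?_ hm
  rw [Nat.add_sub_cancel_left]
  nlinarith [Nat.zero_le (k * k), Nat.zero_le (k * n')]

/-- The same for values in `Lt`. -/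
theorem arith_L {N n n' m : ℕ} (ι : Fin n' ↪ Fin n) (hm : N + (n + 2) ^ 2 ≤ m) :
    (N + kp ι) + (n' + 2) ^ 2 ≤ m := by
  rw [kp_eq]
  obtain ⟨k, rfl⟩ := Nat.exists_eq_add_of_le (le_of_emb ι)
  refine le_trans ?_ hm
  rw [Nat.add_sub_cancel_left]
  nlinarith [Nat.zero_le (k * k), Nat.zero_le (k * n')]

end MP60829e.FR
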