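import Pool.Agent.Lib.MP_60829e_nt.FQ.Rec
import Pool.Agent.Lib.MP_60829e_nt.FR.Dep

/-! # The recursion for finitely many families at each step, with prescribed first values -/

open MvPolynomial Module

namespace MP60829e.FR

open MP60829e.ST (Qa Lsp Lt)
open MP60829e.FC (Xr Gen)
open MP60829e.FQ (GoodP goodP_base goodP_step Xr_congr)

/-- The invariant of the recursion. -/
private def Inv {T : Type} {Nf nf : T → ℕ} {m : ℕ} (s : ℕ) (lam : ℕ → ℂ)
    (P : ℕ → ∀ t, MvPolynomial (Fin (Nf t) ⊕ Fin (nf t)) ℂ) (y : ℕ → Fin m → ℚ) (r : ℕ)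
    (x : ℕ → Fin m → ℚ) : Prop :=
  (∀ j < s, x j = y j) ∧ ∀ i, i ≤ r → ∀ t, GoodP (P i t) (Xr lam x (r + s)) (Xr lam x (i + s))

private theorem inv_zero {T : Type} {Nf nf : T → ℕ} {m : ℕ} (s : ℕ) (lam : ℕ → ℂ)
    (P : ℕ → ∀ t, MvPolynomial (Fin (Nf t) ⊕ Fin (nf t)) ℂ) (y : ℕ → Fin m → ℚ) :
    Inv s lam P y 0 y := by
  refine ⟨fun j _ => rfl, fun i hi t => ?_⟩
  obtain rfl : i = 0 := Nat.le_zero.1 hi
  exact goodP_base _ _

private theorem inv_step {T : Type} [Finite T] {Nf nf : T → ℕ} {m : ℕ} (s : ℕ)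
    (hm : ∀ t, Nf t + nf t * (nf t + 2) + 1 ≤ m) (lam : ℕ → ℂ)
    (hlam : LinearIndependent Qa lam) (hlog : ∀ j, lam j ∈ Lsp)
    (P : ℕ → ∀ t, MvPolynomial (Fin (Nf t) ⊕ Fin (nf t)) ℂ) (y : ℕ → Fin m → ℚ) (r : ℕ)
    (x : ℕ → Fin m → ℚ) (h : Inv s lam P y r x) :
    ∃ a : Fin m → ℚ, Inv s lam P y (r + 1) (Function.update x (r + s) a) := by
  obtain ⟨U, hU⟩ := FC.exists_gen m
  have h1 : ∀ᶠ a in (U : Filter (Fin m → ℚ)), ∀ i ∈ Set.Iic r, ∀ t,
      GoodP (P i t) (Xr lam (Function.update x (r + s) a) (r + s + 1)) (Xr lam x (i + s)) := by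
    rw [Filter.eventually_all_finite (Set.finite_Iic r)]
    intro i hi
    rw [Filter.eventually_all]
    intro t
    exact goodP_step (hm t) lam hlam hlog x U hU (P i t) _ (h.2 i hi t)
  obtain ⟨a, ha⟩ := h1.exists
  refine ⟨a, fun j hj => ?_, fun i hi t => ?_⟩
  · rw [Function.update_of_ne (by omega)]
    exact h.1 j hj
  · have hrs : r + 1 + s = r + s + 1 := by omega
    rw [hrs]
    rcases Nat.lt_or_ge r i with hri | hri
    · obtain rfl : i = r + 1 := by omega
      rw [hrs]
      exact goodP_base _ _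
    · have h2 : Xr lam (Function.update x (r + s) a) (i + s) = Xr lam x (i + s) :=
        Xr_congr lam fun j hj => Function.update_of_ne (by omega) _ _
      rw [h2]
      exact ha i hri t

/-- Recursion with `goodP_step` for finitely many families at each step. -/
theorem exists_x {T : Type} [Finite T] {Nf nf : T → ℕ} {m : ℕ} (s : ℕ)
    (hm : ∀ t, Nf t + nf t * (nf t + 2) + 1 ≤ m) (lam : ℕ → ℂ)
    (hlam : LinearIndependent Qa lam) (hlog : ∀ j, lam j ∈ Lsp)
    (P : ℕ → ∀ t, MvPolynomial (Fin (Nf t) ⊕ Fin (nf t)) ℂ) (y : ℕ → Fin m → ℚ) :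
    ∃ x : ℕ → Fin m → ℚ, (∀ j < s, x j = y j) ∧
      ∀ i r, i ≤ r → ∀ t, GoodP (P i t) (Xr lam x (r + s)) (Xr lam x (i + s)) := by
  choose a ha using fun (r : ℕ) (x : ℕ → Fin m → ℚ) (h : Inv s lam P y r x) =>
    inv_step s hm lam hlam hlog P y r x h
  let u : ∀ r : ℕ, {x : ℕ → Fin m → ℚ // Inv s lam P y r x} := fun r =>
    Nat.rec ⟨y, inv_zero s lam P y⟩
      (fun r p => ⟨Function.update p.1 (r + s) (a r p.1 p.2), ha r p.1 p.2⟩) r
  have hu : ∀ r, (u (r + 1)).1 = Function.update (u r).1 (r + s) (a r (u r).1 (u r).2) :=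
    fun r => rfl
  obtain ⟨x, hx⟩ : ∃ x : ℕ → Fin m → ℚ, x = fun r => (u (r + 1)).1 r := ⟨_, rfl⟩
  have key : ∀ r, ∀ j < r + s, (u r).1 j = x j := by
    intro r
    induction r with
    | zero =>
      intro j hj
      have h1 := (u 0).2.1 j (by omega)
      have h2 := (u (j + 1)).2.1 j (by omega)
      rw [hx]
      change (u 0).1 j = (u (j + 1)).1 j
      rw [h1, h2]
    | succ r ih =>
      intro j hj
      rcases Nat.lt_or_ge j (r + s) with h | h
      · rw [hu, Function.update_of_ne (by omega)]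
        exact ih j h
      · -- the value at `r + s` is set at this step and not changed afterwards
        obtain rfl : j = r + s := by omega
        have h3 : ∀ k, (u (r + 1 + k)).1 (r + s) = (u (r + 1)).1 (r + s) := by
          intro k
          induction k with
          | zero => rfl
          | succ k ihk =>
            have h4 : r + 1 + (k + 1) = (r + 1 + k) + 1 := by omega
            rw [h4, hu, Function.update_of_ne (by omega)]
            exact ihk
        have h5 := h3 s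
        have h6 : r + 1 + s = r + s + 1 := by omega
        rw [h6] at h5
        rw [hx]
        exact h5.symm
  refine ⟨x, fun j hj => ?_, fun i r hir t => ?_⟩
  · rw [← key 0 j (by omega)]
    exact (u 0).2.1 j hj
  · have h1 : Xr lam x (r + s) = Xr lam (u r).1 (r + s) :=
      Xr_congr lam fun j hj => (key r j hj).symm
    have h2 : Xr lam x (i + s) = Xr lam (u r).1 (i + s) :=
      Xr_congr lam fun j hj => (key r j (by omega)).symm
    rw [h1, h2]
    exact (u r).2.2 i hir t

end MP60829e.FR
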